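import Mathlib
import Pool.Agent.Lib.MP_1929a6_lc.Bridge

/-!
# `ZF` refutes `|B(A)| ≤ |S₃(A)|` for every infinite set `A`

`(M, E)` is an arbitrary model of `ZF`.  For every infinite set `A` of the model the set `B` of all
finitary partitions of `A` and the set `S` of all permutations of `A` with exactly three non-fixed
points exist in the model, and there is no injection from `B` to `S` in the model.
-/

universe u

namespace Pool.Agent.Results.MP_1929a6_lc.NoInjection

open Pool.Agent.ZF Pool.Agent.Lib.MP_1929a6_lc

theorem result {M : Type u} (E : M → M → Prop) (hM : IsZF E) (A : M) (hA : ¬ IsFinite E A) :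
    ∃ B S : M, (∀ P, E P B ↔ IsFinitaryPartition E A P) ∧ (∀ σ, E σ S ↔ IsThreeCycle E A σ) ∧
      ¬ ∃ f, IsInjection E f B S := by
  let m : Model M := ⟨E, hM⟩
  obtain ⟨B, hB⟩ := exists_partitions A
  obtain ⟨S, hS⟩ := exists_cycles A
  refine ⟨B, S, hB, hS, no_injection (fun h => hA (isFinite_iff.2 h)) hB hS⟩

end Pool.Agent.Results.MP_1929a6_lc.NoInjection
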